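import Pool.Agent.Q198.Weak

set_option autoImplicit false

/-!
# A super Δ-point in the closure of the denting points
-/

namespace Pool.Agent.Results.MP_a21db2_an.SuperDeltaLimitOfDenting

open Filter Topology Set Pool.Agent.Q198.Weak
open scoped ENNReal

section defs

variable {X : Type} [NormedAddCommGroup X] [NormedSpace ℝ X]

/-- The slice `S(B_X, f, α)`. -/
def slice (f : StrongDual ℝ X) (α : ℝ) : Set X := {y | ‖y‖ ≤ 1 ∧ ‖f‖ - α < f y}

/-- Denting points of the closed unit ball. -/
def IsDenting (x : X) : Prop :=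
  ‖x‖ ≤ 1 ∧ ∀ ε : ℝ, 0 < ε → ∃ (f : StrongDual ℝ X) (α : ℝ), f ≠ 0 ∧ 0 < α ∧ x ∈ slice f α ∧
    Metric.diam (slice f α) < ε

/-- `Δ`-points. -/
def IsDelta (x : X) : Prop :=
  ‖x‖ = 1 ∧ ∀ (f : StrongDual ℝ X) (α : ℝ), f ≠ 0 → 0 < α → x ∈ slice f α →
    IsLUB ((fun y => ‖x - y‖) '' slice f α) 2

/-- Super `Δ`-points. -/
def IsSuperDelta (x : X) : Prop :=
  ‖x‖ = 1 ∧ ∀ W : Set X, RelWeaklyOpen W → x ∈ W → IsLUB ((fun y => ‖x - y‖) '' W) 2

theorem slice_relWeaklyOpen (f : StrongDual ℝ X) (α : ℝ) : RelWeaklyOpen (slice f α) := by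
  refine ⟨{w | ‖f‖ - α < f ((toWeakSpace ℝ X).symm w)}, ?_, ?_⟩
  · exact isOpen_lt continuous_const (continuous_eval f)
  · ext y
    simp [slice]

theorem IsSuperDelta.isDelta {x : X} (h : IsSuperDelta x) : IsDelta x :=
  ⟨h.1, fun f α _ _ hx => h.2 _ (slice_relWeaklyOpen f α) hx⟩

end defs

/-- The space `ℓ_∞`. -/
abbrev Li : Type := lp (fun _ : ℕ => ℝ) ∞

/-- The space `ℓ_1`. -/
abbrev L1 : Type := lp (fun _ : ℕ => ℝ) 1

/-- The sum `ℓ_∞ ⊕_1 ℓ_1`. -/
abbrev P : Type := WithLp 1 (Li × L1)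

theorem norm_apply_le (h : Li) (n : ℕ) : |h n| ≤ ‖h‖ :=
  lp.norm_apply_le_norm ENNReal.top_ne_zero h n

theorem summable_norm (x : L1) : Summable fun n => ‖x n‖ := by
  simpa using (lp.memℓp x).summable (by simp)

theorem norm_L1 (x : L1) : ‖x‖ = ∑' n, ‖x n‖ := by
  rw [lp.norm_eq_tsum_rpow (by simp)]
  simp

theorem norm_P (p : P) : ‖p‖ = ‖p.fst‖ + ‖p.snd‖ := WithLp.prod_norm_eq_of_L1 p

theorem abs_tsum_le (a : L1) : |∑' m, a m| ≤ ‖a‖ := by
  rw [norm_L1]
  exact norm_tsum_le_tsum_norm (summable_norm a)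

/-- The weights `ε_n = 1/(n+2)` at the even coordinates `2n`. -/
noncomputable def w (j : ℕ) : ℝ := if j % 2 = 0 then 1 / (((j / 2 : ℕ) : ℝ) + 2) else 0

theorem w_nonneg (j : ℕ) : 0 ≤ w j := by
  unfold w
  split_ifs
  · positivity
  · exact le_rfl

theorem w_le (j : ℕ) : w j ≤ 1 := by
  unfold w
  split_ifs
  · rw [div_le_one (by positivity)]
    have : (0 : ℝ) ≤ ((j / 2 : ℕ) : ℝ) := Nat.cast_nonneg _
    linarith
  · exact zero_le_one

/-- The value at `j` of `f + ∑ a_m z_m`, where `z_m = 1 + ε_m e_{2m}`. -/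
noncomputable def val (p : P) (j : ℕ) : ℝ := p.fst j + ((∑' m, p.snd m) + w j * p.snd (j / 2))

theorem val_bound (p : P) (j : ℕ) : |val p j| ≤ 2 * ‖p‖ := by
  unfold val
  have h1 := norm_apply_le p.fst j
  have h2 := abs_tsum_le p.snd
  have h3 : |w j * p.snd (j / 2)| ≤ ‖p.snd‖ := by
    rw [abs_mul, abs_of_nonneg (w_nonneg j)]
    refine (mul_le_of_le_one_left (abs_nonneg _) (w_le j)).trans ?_
    exact lp.norm_apply_le_norm one_ne_zero p.snd (j / 2)
  have h4 := abs_add_le (p.fst j) ((∑' m, p.snd m) + w j * p.snd (j / 2))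
  have h5 := abs_add_le (∑' m, p.snd m) (w j * p.snd (j / 2))
  rw [norm_P]
  have := norm_nonneg p.fst
  linarith

/-- The functional `p ↦ val p j`. -/
noncomputable def ev (j : ℕ) : P →L[ℝ] ℝ :=
  LinearMap.mkContinuous
    { toFun := fun p => val p j
      map_add' := fun p q => by
        simp only [val]
        have h1 : (p + q).fst j = p.fst j + q.fst j := rfl
        have h2 : (p + q).snd (j / 2) = p.snd (j / 2) + q.snd (j / 2) := rfl
        have h3 : ∑' m, (p + q).snd m = ∑' m, p.snd m + ∑' m, q.snd m :=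
          (summable_norm p.snd).of_norm.tsum_add (summable_norm q.snd).of_norm
        rw [h1, h2, h3]
        ring
      map_smul' := fun c p => by
        simp only [val, RingHom.id_apply, smul_eq_mul]
        have h1 : (c • p).fst j = c * p.fst j := rfl
        have h2 : (c • p).snd (j / 2) = c * p.snd (j / 2) := rfl
        have h3 : ∑' m, (c • p).snd m = c * ∑' m, p.snd m := tsum_mul_left
        rw [h1, h2, h3]
        ring } 2 (fun p => val_bound p j)

theorem ev_apply (j : ℕ) (p : P) : ev j p = val p j := rfl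

/-- The pairs `(f, a)` with `f + ∑ a_m z_m = 0`. -/
noncomputable def N : Submodule ℝ P := ⨅ j, LinearMap.ker (ev j).toLinearMap

theorem mem_N {p : P} : p ∈ N ↔ ∀ j, val p j = 0 := by
  simp only [N, Submodule.mem_iInf, LinearMap.mem_ker]
  rfl

instance isClosed_N : IsClosed (N : Set P) := by
  have : (N : Set P) = ⋂ j, {p | ev j p = 0} := by
    ext p
    simp only [SetLike.mem_coe, mem_N, Set.mem_iInter]
    rfl
  rw [this]
  exact isClosed_iInter fun j => isClosed_eq (ev j).continuous continuous_const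

/-- The space `ℓ_∞` with the unit ball `conv(B ∪ {± z_m})`, as a quotient of `ℓ_∞ ⊕_1 ℓ_1`. -/
abbrev X : Type := P ⧸ N

/-- The class of a pair. -/
noncomputable def mk (p : P) : X := Submodule.Quotient.mk p

theorem mk_surj (x : X) {η : ℝ} (hη : 0 < η) : ∃ p, mk p = x ∧ ‖p‖ < ‖x‖ + η :=
  Submodule.Quotient.norm_mk_lt x hη

theorem norm_mk_le (p : P) : ‖mk p‖ ≤ ‖p‖ := Submodule.Quotient.norm_mk_le N p

/-- The evaluation at `j` on `X`. -/
noncomputable def φ (j : ℕ) (C : ℝ) (hC : 0 ≤ C) (h : ∀ p, |val p j| ≤ C * ‖p‖) : X →L[ℝ] ℝ :=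
  LinearMap.mkContinuous (N.liftQ (ev j).toLinearMap (iInf_le _ j)) C (by
    intro x
    refine le_of_forall_pos_le_add fun η hη => ?_
    obtain ⟨p, rfl, hp⟩ := mk_surj x (η := η / (C + 1)) (by positivity)
    have h1 := h p
    change |val p j| ≤ C * ‖mk p‖ + η
    refine h1.trans ?_
    have h2 : C * ‖p‖ ≤ C * (‖mk p‖ + η / (C + 1)) := mul_le_mul_of_nonneg_left hp.le hC
    refine h2.trans ?_
    rw [mul_add]
    refine add_le_add le_rfl ?_
    rw [mul_div_assoc', div_le_iff₀ (by positivity)]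
    nlinarith)

theorem φ_mk (j : ℕ) (C : ℝ) (hC : 0 ≤ C) (h : ∀ p, |val p j| ≤ C * ‖p‖) (p : P) :
    φ j C hC h (mk p) = val p j := rfl

theorem norm_φ_le (j : ℕ) (C : ℝ) (hC : 0 ≤ C) (h : ∀ p, |val p j| ≤ C * ‖p‖) :
    ‖φ j C hC h‖ ≤ C := LinearMap.mkContinuous_norm_le _ hC _

theorem val_bound' (p : P) (j : ℕ) : |val p j| ≤ (1 + w j) * ‖p‖ := by
  unfold val
  have h1 := norm_apply_le p.fst j
  have h2 := abs_tsum_le p.snd
  have h3 : |w j * p.snd (j / 2)| ≤ w j * ‖p.snd‖ := by
    rw [abs_mul, abs_of_nonneg (w_nonneg j)]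
    exact mul_le_mul_of_nonneg_left (lp.norm_apply_le_norm one_ne_zero p.snd (j / 2)) (w_nonneg j)
  have h4 := abs_add_le (p.fst j) ((∑' m, p.snd m) + w j * p.snd (j / 2))
  have h5 := abs_add_le (∑' m, p.snd m) (w j * p.snd (j / 2))
  rw [norm_P]
  have h6 := mul_nonneg (w_nonneg j) (norm_nonneg p.fst)
  nlinarith

/-- The functional at an odd coordinate has norm at most one. -/
theorem abs_val_odd (k : ℕ) (p : P) : |val p (2 * k + 1)| ≤ ‖mk p‖ := by
  have hw : w (2 * k + 1) = 0 := by
    unfold w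
    rw [if_neg (by omega)]
  have h : ∀ p, |val p (2 * k + 1)| ≤ 1 * ‖p‖ := fun p => by
    have := val_bound' p (2 * k + 1)
    rwa [hw, add_zero] at this
  have := (φ (2 * k + 1) 1 zero_le_one h).le_of_opNorm_le (norm_φ_le _ _ _ _) (mk p)
  rwa [one_mul] at this

/-- The pair `(f, 0)`. -/
noncomputable def inl (f : Li) : P := WithLp.toLp 1 (f, 0)

/-- The pair `(0, a)`. -/
noncomputable def inr (a : L1) : P := WithLp.toLp 1 (0, a)

theorem norm_inl (f : Li) : ‖inl f‖ = ‖f‖ := by
  rw [norm_P]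
  change ‖f‖ + ‖(0 : L1)‖ = ‖f‖
  rw [norm_zero, add_zero]

theorem norm_inr (a : L1) : ‖inr a‖ = ‖a‖ := by
  rw [norm_P]
  change ‖(0 : Li)‖ + ‖a‖ = ‖a‖
  rw [norm_zero, zero_add]

theorem val_inl (f : Li) (j : ℕ) : val (inl f) j = f j := by
  unfold val
  change f j + ((∑' m, (0 : L1) m) + w j * (0 : L1) (j / 2)) = f j
  have : ∀ m, (0 : L1) m = 0 := fun _ => rfl
  simp [this]

/-- The constant sequence one. -/
noncomputable def one : Li := ⟨fun _ => 1, memℓp_infty ⟨1, by
  rintro _ ⟨n, rfl⟩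
  simp⟩⟩

theorem one_apply (n : ℕ) : one n = 1 := rfl

/-- The unit vectors of `ℓ_∞`. -/
noncomputable def ei (n : ℕ) : Li := lp.single ∞ n 1

/-- The unit vectors of `ℓ_1`. -/
noncomputable def e1 (n : ℕ) : L1 := lp.single 1 n 1

/-- The super `Δ`-point. -/
noncomputable def x₀ : X := mk (inl one)

/-- The denting points. -/
noncomputable def z (n : ℕ) : X := mk (inr (e1 n))

theorem tsum_e1 (n : ℕ) : ∑' m, e1 n m = 1 := by
  rw [tsum_eq_single n]
  · exact lp.single_apply_self _ _ _
  · intro m hm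
    exact lp.single_apply_ne _ _ _ hm

theorem val_inr_e1 (n j : ℕ) : val (inr (e1 n)) j = 1 + w j * e1 n (j / 2) := by
  unfold val
  change (0 : Li) j + ((∑' m, e1 n m) + w j * e1 n (j / 2)) = _
  rw [tsum_e1]
  have : (0 : Li) j = 0 := rfl
  rw [this, zero_add]

theorem w_even (n : ℕ) : w (2 * n) = 1 / ((n : ℝ) + 2) := by
  unfold w
  rw [if_pos (by omega)]
  have : 2 * n / 2 = n := by omega
  rw [this]

/-- `z n - x₀` is the class of `(ε_n e_{2n}, 0)`. -/
theorem z_sub (n : ℕ) : z n - x₀ = mk (inl ((1 / ((n : ℝ) + 2)) • ei (2 * n))) := by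
  have h1 : z n - x₀ = mk (inr (e1 n) - inl one) := rfl
  rw [h1]
  refine (Submodule.Quotient.eq N).2 (mem_N.2 fun j => ?_)
  have h2 : ∀ p q : P, val (p - q) j = val p j - val q j := fun p q => (ev j).map_sub p q
  rw [h2, h2, val_inl, val_inl, val_inr_e1]
  have h3 : ((1 / ((n : ℝ) + 2)) • ei (2 * n) : Li) j = 1 / ((n : ℝ) + 2) * ei (2 * n) j := rfl
  rw [h3, one_apply]
  rcases eq_or_ne j (2 * n) with rfl | hj
  · have h4 : 2 * n / 2 = n := by omega
    rw [w_even, h4, e1, ei, lp.single_apply_self, lp.single_apply_self]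
    ring
  · rw [ei, lp.single_apply_ne _ _ _ hj, mul_zero, sub_zero]
    by_cases hj2 : j % 2 = 0
    · have h5 : j / 2 ≠ n := by omega
      rw [e1, lp.single_apply_ne _ _ _ h5]
      ring
    · unfold w
      rw [if_neg hj2]
      ring

theorem tendsto_z : Tendsto z atTop (𝓝 x₀) := by
  rw [tendsto_iff_norm_sub_tendsto_zero]
  have h1 : Tendsto (fun n : ℕ => 1 / ((n : ℝ) + 1)) atTop (𝓝 0) :=
    tendsto_one_div_add_atTop_nhds_zero_nat
  refine squeeze_zero (fun _ => norm_nonneg _) (fun n => ?_) h1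
  rw [z_sub]
  refine (norm_mk_le _).trans ?_
  rw [norm_inl, norm_smul, ei, lp.norm_single ENNReal.zero_lt_top, norm_one, mul_one,
    Real.norm_of_nonneg (by positivity)]
  exact one_div_le_one_div_of_le (by positivity) (by linarith)

/-! ### The point `x₀` is a super `Δ`-point -/

theorem norm_one_Li : ‖one‖ ≤ 1 := lp.norm_le_of_forall_le zero_le_one fun n => by simp [one_apply]

theorem norm_x₀ : ‖x₀‖ = 1 := by
  refine le_antisymm ?_ ?_
  · refine (norm_mk_le _).trans ?_
    rw [norm_inl]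
    exact norm_one_Li
  · have := abs_val_odd 0 (inl one)
    rw [val_inl, one_apply, abs_one] at this
    exact this

/-- The perturbing vectors. -/
noncomputable def E (k : ℕ) : X := mk (inl (ei (2 * k + 1)))

/-- The linear map `f ↦ (f, 0)`. -/
noncomputable def inlₗ : Li →ₗ[ℝ] P where
  toFun := inl
  map_add' a b := by
    apply (WithLp.equiv 1 (Li × L1)).injective
    change (a + b, (0 : L1)) = (a, 0) + (b, 0)
    simp
  map_smul' c a := by
    apply (WithLp.equiv 1 (Li × L1)).injective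
    change (c • a, (0 : L1)) = c • (a, (0 : L1))
    simp

theorem wuc (F : Finset ℕ) (ε : ℕ → ℝ) (hε : ∀ n, |ε n| ≤ 1) : ‖∑ n ∈ F, ε n • E n‖ ≤ 1 := by
  have h1 : ∑ n ∈ F, ε n • E n = mk (inl (∑ n ∈ F, ε n • ei (2 * n + 1))) := by
    let L : Li →ₗ[ℝ] X := (N.mkQ).comp inlₗ
    change ∑ n ∈ F, ε n • L (ei (2 * n + 1)) = L (∑ n ∈ F, ε n • ei (2 * n + 1))
    rw [map_sum]
    exact Finset.sum_congr rfl fun n _ => (map_smul L _ _).symm
  rw [h1]
  refine (norm_mk_le _).trans ?_
  rw [norm_inl]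
  refine lp.norm_le_of_forall_le zero_le_one fun j => ?_
  have h2 : (∑ n ∈ F, ε n • ei (2 * n + 1) : Li) j = ∑ n ∈ F, ε n * ei (2 * n + 1) j := by
    rw [lp.coeFn_sum, Finset.sum_apply]
    rfl
  rw [h2]
  by_cases hj : ∃ n ∈ F, j = 2 * n + 1
  · obtain ⟨n, hn, rfl⟩ := hj
    rw [Finset.sum_eq_single n]
    · rw [ei, lp.single_apply_self, mul_one]
      exact hε n
    · intro m _ hm
      rw [ei, lp.single_apply_ne _ _ _ (by omega), mul_zero]
    · intro h
      exact absurd hn h
  · push Not at hj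
    rw [Finset.sum_eq_zero fun n hn => by
      rw [ei, lp.single_apply_ne _ _ _ (hj n hn), mul_zero]]
    simp

theorem superDelta_x₀ : IsSuperDelta x₀ := by
  refine ⟨norm_x₀, fun W hW hx => ?_⟩
  have hball : ∀ y ∈ W, ‖y‖ ≤ 1 := by
    obtain ⟨U, -, rfl⟩ := hW
    exact fun y hy => hy.1
  constructor
  · rintro _ ⟨y, hy, rfl⟩
    have := norm_sub_le x₀ y
    rw [norm_x₀] at this
    have := hball y hy
    simp only
    linarith
  · intro b hb
    -- the points `y_k = x₀ - 2 E_k`
    have hy1 : ∀ k, ‖x₀ - (2 : ℝ) • E k‖ ≤ 1 := by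
      intro k
      have h1 : x₀ - (2 : ℝ) • E k = mk (inl (one - (2 : ℝ) • ei (2 * k + 1))) := by
        change mk (inl one - (2 : ℝ) • inl (ei (2 * k + 1))) = _
        congr 1
        apply (WithLp.equiv 1 (Li × L1)).injective
        change (one, (0 : L1)) - (2 : ℝ) • (ei (2 * k + 1), 0) = (one - (2 : ℝ) • ei (2 * k + 1), 0)
        simp
      rw [h1]
      refine (norm_mk_le _).trans ?_
      rw [norm_inl]
      refine lp.norm_le_of_forall_le zero_le_one fun j => ?_
      have h2 : (one - (2 : ℝ) • ei (2 * k + 1) : Li) j = 1 - 2 * ei (2 * k + 1) j := rfl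
      rw [h2]
      rcases eq_or_ne j (2 * k + 1) with rfl | hj
      · rw [ei, lp.single_apply_self]
        norm_num
      · rw [ei, lp.single_apply_ne _ _ _ hj]
        norm_num
    have hev : ∀ᶠ k in atTop, x₀ - (2 : ℝ) • E k ∈ W := by
      refine eventually_mem hW hx (Eventually.of_forall hy1) fun f => ?_
      have h1 : Tendsto (fun k => f (E k)) atTop (𝓝 0) := wuc_tendsto wuc f
      have h2 : Tendsto (fun k => f x₀ - 2 * f (E k)) atTop (𝓝 (f x₀ - 2 * 0)) :=
        tendsto_const_nhds.sub (h1.const_mul 2)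
      rw [mul_zero, sub_zero] at h2
      refine h2.congr fun k => ?_
      rw [map_sub, map_smul, smul_eq_mul]
    obtain ⟨k, hk⟩ := hev.exists
    have h3 := hb ⟨_, hk, rfl⟩
    simp only [sub_sub_cancel] at h3
    refine le_trans ?_ h3
    rw [norm_smul, Real.norm_of_nonneg zero_le_two]
    have h4 := abs_val_odd k (inl (ei (2 * k + 1)))
    rw [val_inl, ei, lp.single_apply_self, abs_one] at h4
    have h5 : (1 : ℝ) ≤ ‖E k‖ := h4
    linarith

/-! ### The points `z n` are denting -/

theorem norm_z_le (n : ℕ) : ‖z n‖ ≤ 1 := by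
  refine (norm_mk_le _).trans ?_
  rw [norm_inr, e1, lp.norm_single one_pos, norm_one]

theorem denting_z (n : ℕ) : IsDenting (z n) := by
  refine ⟨norm_z_le n, fun ε hε => ?_⟩
  set t : ℝ := 1 / ((n : ℝ) + 2) with ht
  have ht0 : 0 < t := by positivity
  have ht1 : t ≤ 1 := by
    rw [ht, div_le_one (by positivity)]
    have : (0 : ℝ) ≤ n := Nat.cast_nonneg _
    linarith
  have hb : ∀ p, |val p (2 * n)| ≤ (1 + t) * ‖p‖ := fun p => by
    have := val_bound' p (2 * n)
    rwa [w_even] at this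
  let f : StrongDual ℝ X := φ (2 * n) (1 + t) (by positivity) hb
  have hfz : f (z n) = 1 + t := by
    change val (inr (e1 n)) (2 * n) = 1 + t
    have h4 : 2 * n / 2 = n := by omega
    rw [val_inr_e1, w_even, h4, e1, lp.single_apply_self, mul_one]
  have hfn : ‖f‖ = 1 + t := by
    refine le_antisymm (norm_φ_le _ _ _ _) ?_
    have h1 := f.le_opNorm (z n)
    rw [hfz, Real.norm_of_nonneg (by positivity)] at h1
    exact h1.trans (mul_le_of_le_one_right (norm_nonneg _) (norm_z_le n))
  set α : ℝ := ε * t / 16 with hα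
  have hα0 : 0 < α := by positivity
  have hclose : ∀ y ∈ slice f α, ‖y - z n‖ ≤ ε / 4 := by
    rintro y ⟨hy1, hy2⟩
    rw [hfn] at hy2
    refine le_of_forall_pos_le_add fun η' hη' => ?_
    -- a representative of almost minimal norm
    set η : ℝ := min α (η' * t / 16) with hη
    have hη0 : 0 < η := lt_min hα0 (by positivity)
    obtain ⟨p, rfl, hp⟩ := mk_surj y hη0
    have hp1 : ‖p.fst‖ + ‖p.snd‖ ≤ 1 + η := by
      rw [← norm_P]
      linarith
    have hval : f (mk p) = p.fst (2 * n) + ((∑' m, p.snd m) + t * p.snd n) := by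
      change val p (2 * n) = _
      have h4 : 2 * n / 2 = n := by omega
      unfold val
      rw [w_even, h4]
    -- separate the `n`-th coordinate
    let q : L1 := p.snd - lp.single 1 n (p.snd n)
    have hqn : ‖p.snd‖ = ‖q‖ + |p.snd n| := by
      rw [norm_L1, norm_L1, (summable_norm p.snd).tsum_eq_add_tsum_ite n,
        (summable_norm q).tsum_eq_add_tsum_ite n]
      have e1 : q n = 0 := by
        change p.snd n - (lp.single 1 n (p.snd n) : L1) n = 0
        rw [lp.single_apply_self, sub_self]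
      rw [e1, norm_zero, zero_add, add_comm]
      congr 1
      refine tsum_congr fun m => ?_
      split_ifs with h
      · rfl
      · have : q m = p.snd m - (lp.single 1 n (p.snd n) : L1) m := rfl
        rw [this, lp.single_apply_ne _ _ _ h, sub_zero]
    have hqs : ∑' m, p.snd m = ∑' m, q m + p.snd n := by
      have h1 : ∀ m, p.snd m = q m + (lp.single 1 n (p.snd n) : L1) m := by
        intro m
        have : q m = p.snd m - (lp.single 1 n (p.snd n) : L1) m := rfl
        rw [this, sub_add_cancel]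
      rw [tsum_congr h1, (summable_norm q).of_norm.tsum_add
        (summable_norm (lp.single 1 n (p.snd n))).of_norm]
      congr 1
      rw [tsum_eq_single n]
      · exact lp.single_apply_self _ _ _
      · intro m hm
        exact lp.single_apply_ne _ _ _ hm
    set a : ℝ := p.snd n with ha
    set r : ℝ := ‖p.fst‖ + ‖q‖ with hr
    have hr0 : 0 ≤ r := by positivity
    have hra : r + |a| ≤ 1 + η := by
      rw [hqn] at hp1
      linarith
    have hup : f (mk p) ≤ r + (1 + t) * a := by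
      rw [hval, hqs]
      have h1 := (le_abs_self _).trans (norm_apply_le p.fst (2 * n))
      have h2 := (le_abs_self _).trans (abs_tsum_le q)
      linarith
    have haa := le_abs_self a
    have hη1 : η ≤ α := min_le_left _ _
    have hη2 : η ≤ η' * t / 16 := min_le_right _ _
    -- `t r ≤ α + 2 η`
    have htr : t * r ≤ α + 2 * η := by nlinarith
    have har : 1 - a ≤ r + α := by nlinarith
    have ha1 : a - 1 ≤ η := by linarith
    have hdist : ‖mk p - z n‖ ≤ r + |a - 1| := by
      have h1 : mk p - z n = mk (p - inr (e1 n)) := rfl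
      rw [h1]
      refine (norm_mk_le _).trans ?_
      rw [norm_P]
      have h2 : (p - inr (e1 n)).fst = p.fst := by
        change p.fst - 0 = p.fst
        rw [sub_zero]
      have h3 : (p - inr (e1 n)).snd = q + lp.single 1 n (a - 1) := by
        change p.snd - e1 n = _
        have : (lp.single 1 n (a - 1) : L1) = lp.single 1 n a - lp.single 1 n 1 :=
          lp.single_sub _ _ _ _
        rw [this]
        change p.snd - e1 n = (p.snd - lp.single 1 n a) + (lp.single 1 n a - e1 n)
        abel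
      rw [h2, h3, hr, add_assoc]
      refine add_le_add le_rfl ((norm_add_le _ _).trans (add_le_add le_rfl ?_))
      rw [lp.norm_single one_pos, Real.norm_eq_abs]
    have habs : |a - 1| ≤ r + α + η := by
      rw [abs_le]
      constructor
      · linarith
      · linarith
    have hrt : r ≤ (α + 2 * η) / t := by
      rw [le_div_iff₀ ht0]
      linarith
    have h5 : (α + 2 * η) / t ≤ ε / 16 + η' / 8 := by
      rw [div_le_iff₀ ht0]
      nlinarith
    have hαε : α ≤ ε / 16 := by
      rw [hα]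
      nlinarith
    have hηη : η ≤ η' / 16 := hη2.trans (by nlinarith)
    linarith
  refine ⟨f, α, ?_, hα0, ⟨norm_z_le n, ?_⟩, ?_⟩
  · intro h
    have h1 : f (z n) = 0 := by
      rw [h]
      rfl
    linarith
  · rw [hfn, hfz]
    linarith
  · have : Metric.diam (slice f α) ≤ ε / 2 := by
      refine Metric.diam_le_of_forall_dist_le (by positivity) fun y hy y' hy' => ?_
      have h1 := hclose y hy
      have h2 := hclose y' hy'
      rw [dist_eq_norm]
      have h3 : y - y' = (y - z n) - (y' - z n) := by abel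
      rw [h3]
      refine (norm_sub_le _ _).trans ?_
      linarith
    linarith

/-- There is a real Banach space with a super `Δ`-point (in particular a `Δ`-point) that belongs to
the closure of the set of denting points of the unit ball. -/
theorem result : ∃ (X : Type) (_ : NormedAddCommGroup X) (_ : NormedSpace ℝ X) (x : X),
    CompleteSpace X ∧ IsSuperDelta x ∧ IsDelta x ∧ x ∈ closure {y : X | IsDenting y} :=
  ⟨X, inferInstance, inferInstance, x₀, inferInstance, superDelta_x₀, superDelta_x₀.isDelta,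
    mem_closure_of_tendsto tendsto_z (Eventually.of_forall denting_z)⟩

end Pool.Agent.Results.MP_a21db2_an.SuperDeltaLimitOfDenting
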